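import Mathlib
import Pool.Graph.R_pool_sql_team_seeded_620a6dc7.H42.Game.Def
import Pool.Graph.R_pool_sql_team_seeded_620a6dc7.H42.Game.Lower
import Pool.Agent.H188.Seq.Game
import Pool.Agent.H188.Seq.Comp

set_option autoImplicit false

namespace Pool.Agent.Results.MP_f2e062_co.ExactlyFive

open H42Game (PlayerOneWins)

/-- The least `c` for which Player 1 has a strategy in the `c`-ary sequence game (avoiding all
repetitions of total length at least `3`) is `5`. -/
theorem result : IsLeast {c : ℕ | PlayerOneWins c} 5 := by
  refine ⟨Pool.Agent.H188.Seq.win Pool.Agent.H188.Seq.root_ok, fun c hc => ?_⟩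
  by_contra hlt
  exact H42Game.lower (by omega) hc

end Pool.Agent.Results.MP_f2e062_co.ExactlyFive
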